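import Pool.Agent.Helper6_UNF.Oac

set_option autoImplicit false

/-!
# Squad UNF, module BFD: folding for type B
-/

namespace Unf.H39

open Art Unf.H6

/-! ### Relations in groups -/

theorem rel4 {G : Type} [Group G] {a b c : G} (hab : a * b = b * a) (hac : a * c * a = c * a * c)
    (hbc : b * c * b = c * b * c) : alt 4 (a * b) c = alt 4 c (a * b) := by
  rw [show (4 : ℕ) = 2 * 2 from rfl, alt_two_mul, alt_two_mul, pow_two, pow_two]
  calc a * b * c * (a * b * c) = b * a * c * (a * b * c) := congrArg (· * c * (a * b * c)) hab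
    _ = b * (a * c * a) * b * c := by simp only [mul_assoc]
    _ = b * (c * a * c) * b * c := by rw [hac]
    _ = b * c * a * (c * b * c) := by simp only [mul_assoc]
    _ = b * c * a * (b * c * b) := by rw [hbc]
    _ = b * c * (a * b) * c * b := by simp only [mul_assoc]
    _ = b * c * (b * a) * c * b := by rw [hab]
    _ = (b * c * b) * a * c * b := by simp only [mul_assoc]
    _ = (c * b * c) * a * c * b := by rw [hbc]
    _ = c * b * (c * a * c) * b := by simp only [mul_assoc]
    _ = c * b * (a * c * a) * b := by rw [hac]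
    _ = c * (b * a) * c * (a * b) := by simp only [mul_assoc]
    _ = c * (a * b) * (c * (a * b)) := by rw [← hab]; simp only [mul_assoc]

theorem rel3 {G : Type} [Group G] {a b a' b' : G} (h1 : Commute a a') (h2 : Commute a b')
    (h3 : Commute b a') (h4 : Commute b b')
    (hab : a * b * a = b * a * b) (hab' : a' * b' * a' = b' * a' * b') :
    alt 3 (a * a') (b * b') = alt 3 (b * b') (a * a') := by
  rw [show (3 : ℕ) = 2 * 1 + 1 from rfl, alt_two_mul_add_one, alt_two_mul_add_one, pow_one, pow_one]
  calc a * a' * (b * b') * (a * a') = a * (a' * b) * (b' * a) * a' := by simp only [mul_assoc]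
    _ = a * (b * a') * (a * b') * a' := by rw [h3.eq, h2.eq]
    _ = a * b * (a' * a) * b' * a' := by simp only [mul_assoc]
    _ = a * b * (a * a') * b' * a' := by rw [h1.eq]
    _ = (a * b * a) * (a' * b' * a') := by simp only [mul_assoc]
    _ = (b * a * b) * (b' * a' * b') := by rw [hab, hab']
    _ = b * a * (b * b') * a' * b' := by simp only [mul_assoc]
    _ = b * a * (b' * b) * a' * b' := by rw [h4.eq]
    _ = b * (a * b') * (b * a') * b' := by simp only [mul_assoc]
    _ = b * (b' * a) * (a' * b) * b' := by rw [h2.eq, h3.eq]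
    _ = b * b' * (a * a') * (b * b') := by simp only [mul_assoc]

/-! ### The folding -/

/-- The generators of the braid group, numbered by natural numbers. -/
def sg (n k : ℕ) : Gp (CoxeterMatrix.A n) := if h : k < n then gen _ ⟨k, h⟩ else 1

theorem sg_eq {n : ℕ} (k : Fin n) : gen (CoxeterMatrix.A n) k = sg n k.1 := by
  unfold sg
  rw [dif_pos k.2]

theorem sg_comm {n k l : ℕ} (h : k + 2 ≤ l) : Commute (sg n k) (sg n l) := by
  unfold sg
  by_cases hl : l < n
  · have hk : k < n := by omega
    rw [dif_pos hk, dif_pos hl]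
    have h0 := relHolds (CoxeterMatrix.A n) ⟨k, hk⟩ ⟨l, hl⟩
    have hM : (CoxeterMatrix.A n).M ⟨k, hk⟩ ⟨l, hl⟩ = 2 := by
      show (if (⟨k, hk⟩ : Fin n) = ⟨l, hl⟩ then 1 else
        (if l + 1 = k ∨ k + 1 = l then 3 else 2)) = 2
      rw [if_neg (by intro h'; have := congrArg Fin.val h'; simp at this; omega),
        if_neg (by omega)]
    rw [hM] at h0
    have h1 := h0 (by norm_num)
    rw [alt_two, alt_two] at h1
    exact h1
  · rw [dif_neg hl]
    exact Commute.one_right _

theorem sg_braid {n k : ℕ} (h : k + 1 < n) :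
    sg n k * sg n (k + 1) * sg n k = sg n (k + 1) * sg n k * sg n (k + 1) := by
  unfold sg
  have hk : k < n := by omega
  rw [dif_pos hk, dif_pos h]
  have h0 := relHolds (CoxeterMatrix.A n) ⟨k, hk⟩ ⟨k + 1, h⟩
  have hM : (CoxeterMatrix.A n).M ⟨k, hk⟩ ⟨k + 1, h⟩ = 3 := by
    show (if (⟨k, hk⟩ : Fin n) = ⟨k + 1, h⟩ then 1 else
      (if k + 1 + 1 = k ∨ k + 1 = k + 1 then 3 else 2)) = 3
    rw [if_neg (by intro h'; have := congrArg Fin.val h'; simp at this),
      if_pos (by omega)]
  rw [hM] at h0
  have h1 := h0 (by norm_num)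
  rw [show (3 : ℕ) = 2 * 1 + 1 from rfl, alt_two_mul_add_one, alt_two_mul_add_one, pow_one,
    pow_one] at h1
  exact h1

/-- The images of the generators. -/
def ff (m k : ℕ) : Gp (CoxeterMatrix.A (2 * m + 1)) :=
  if k = m then sg _ m else sg _ k * sg _ (2 * m - k)

theorem ff_rel {m k l : ℕ} (hk : k < l) (hl : l ≤ m) :
    alt (if k + 1 = m ∧ l = m then 4 else if k + 1 = l then 3 else 2) (ff m k) (ff m l) =
      alt (if k + 1 = m ∧ l = m then 4 else if k + 1 = l then 3 else 2) (ff m l) (ff m k) := by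
  have hkm : k ≠ m := by omega
  by_cases h1 : l = m
  · by_cases h2 : k + 1 = m
    · rw [if_pos ⟨h2, h1⟩]
      unfold ff
      rw [if_neg hkm, if_pos h1]
      apply rel4
      · exact (sg_comm (by omega)).eq
      · rw [← h2]
        exact sg_braid (by omega)
      · have e : 2 * m - k = m + 1 := by omega
        rw [e]
        exact (sg_braid (by omega)).symm
    · rw [if_neg (by omega), if_neg (by omega)]
      unfold ff
      rw [if_neg hkm, if_pos h1, alt_two, alt_two]
      exact Commute.mul_left (sg_comm (by omega)) (sg_comm (by omega)).symm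
  · rw [if_neg (by omega)]
    unfold ff
    rw [if_neg hkm, if_neg h1]
    by_cases h3 : k + 1 = l
    · rw [if_pos h3]
      subst h3
      apply rel3
      · exact sg_comm (by omega)
      · exact sg_comm (by omega)
      · exact sg_comm (by omega)
      · exact sg_comm (by omega)
      · exact sg_braid (by omega)
      · have e : 2 * m - k = 2 * m - (k + 1) + 1 := by omega
        rw [e]
        exact (sg_braid (by omega)).symm
    · rw [if_neg h3, alt_two, alt_two]
      exact Commute.mul_left (Commute.mul_right (sg_comm (by omega)) (sg_comm (by omega)))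
        (Commute.mul_right (sg_comm (by omega)).symm (sg_comm (by omega)).symm)

theorem exists_fold (m : ℕ) :
    ∃ fold : Gp (CoxeterMatrix.B (m + 1)) →* Gp (CoxeterMatrix.A (2 * m + 1)),
      ∀ k : Fin (m + 1), fold (gen _ k) = ff m k.1 := by
  refine lift (CoxeterMatrix.B (m + 1)) (fun k : Fin (m + 1) => ff m k.1) ?_
  have key : ∀ s t : Fin (m + 1), s.1 < t.1 → (CoxeterMatrix.B (m + 1)).M s t =
      (if s.1 + 1 = m ∧ t.1 = m then 4 else if s.1 + 1 = t.1 then 3 else 2) := by
    intro s t h
    have h1 := t.2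
    show (if s = t then 1 else (if (s : ℕ) = m + 1 - 1 ∧ (t : ℕ) = m + 1 - 2 ∨
      (t : ℕ) = m + 1 - 1 ∧ (s : ℕ) = m + 1 - 2 then 4 else
        (if (t : ℕ) + 1 = s ∨ (s : ℕ) + 1 = t then 3 else 2))) = _
    rw [if_neg (by intro h'; have := congrArg Fin.val h'; omega)]
    split_ifs <;> first | rfl | (exfalso; omega)
  intro s t _
  rcases Nat.lt_trichotomy s.1 t.1 with h | h | h
  · rw [key s t h]
    exact ff_rel h (by have := t.2; omega)
  · have : s = t := Fin.ext h
    rw [this]
  · have e : (CoxeterMatrix.B (m + 1)).M s t = (CoxeterMatrix.B (m + 1)).M t s :=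
      (CoxeterMatrix.B (m + 1)).symmetric s t
    rw [e, key t s h]
    exact (ff_rel h (by have := s.2; omega)).symm

/-! ### The Artin action -/

/-- The generators, numbered by natural numbers. -/
def xg (k j : ℕ) : O k := if h : j < k then ox ⟨j, h⟩ else 1

theorem xg_eq {k : ℕ} (j : Fin k) : (ox j : O k) = xg k j.1 := by
  unfold xg
  rw [dif_pos j.2]

theorem xg_mul_self (k j : ℕ) : xg k j * xg k j = 1 := by
  unfold xg
  split_ifs
  · exact ox_mul_self _
  · rw [one_mul]

theorem xg_inv (k j : ℕ) : (xg k j)⁻¹ = xg k j := by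
  rw [inv_eq_iff_mul_eq_one]
  exact xg_mul_self k j

/-- `x_(k-d) ... x_(k-1)`. -/
def tl (k : ℕ) : ℕ → O k
  | 0 => 1
  | d + 1 => xg k (k - (d + 1)) * tl k d

/-- `x_j ... x_(k-1)`. -/
def cc (k j : ℕ) : O k := tl k (k - j)

theorem cc_top (k : ℕ) : cc k k = 1 := by
  unfold cc
  rw [Nat.sub_self]
  rfl

theorem cc_succ {k j : ℕ} (h : j < k) : cc k j = xg k j * cc k (j + 1) := by
  unfold cc
  obtain ⟨d, rfl⟩ : ∃ d, k = j + (d + 1) := ⟨k - j - 1, by omega⟩
  have e1 : j + (d + 1) - j = d + 1 := by omega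
  have e2 : j + (d + 1) - (j + 1) = d := by omega
  rw [e1, e2]
  show xg _ (j + (d + 1) - (d + 1)) * tl _ d = _
  rw [show j + (d + 1) - (d + 1) = j by omega]

section

variable {n : ℕ} {Ψ : Gp (CoxeterMatrix.A n) →* MulAut (O (n + 1))} (hΨ : IsArt n Ψ)

include hΨ

theorem act_a {i : ℕ} (hi : i < n) : Ψ (sg n i) (xg (n + 1) i) =
    xg (n + 1) i * xg (n + 1) (i + 1) * xg (n + 1) i := by
  have := (hΨ ⟨i, hi⟩).1
  rw [sg_eq, xg_eq, xg_eq] at this
  exact this

theorem act_b {i : ℕ} (hi : i < n) : Ψ (sg n i) (xg (n + 1) (i + 1)) = xg (n + 1) i := by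
  have := (hΨ ⟨i, hi⟩).2.1
  rw [sg_eq, xg_eq, xg_eq] at this
  exact this

theorem act_c {i j : ℕ} (h1 : j ≠ i) (h2 : j ≠ i + 1) :
    Ψ (sg n i) (xg (n + 1) j) = xg (n + 1) j := by
  by_cases hi : i < n
  · by_cases hj : j < n + 1
    · have := (hΨ ⟨i, hi⟩).2.2 ⟨j, hj⟩ (by intro h'; exact h1 (congrArg Fin.val h'))
        (by intro h'; exact h2 (congrArg Fin.val h'))
      rw [sg_eq, xg_eq] at this
      exact this
    · unfold xg
      rw [dif_neg hj, map_one]
  · unfold sg
    rw [dif_neg hi, map_one]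
    rfl

theorem act_pair {i : ℕ} (hi : i < n) : Ψ (sg n i) (xg (n + 1) i * xg (n + 1) (i + 1)) =
    xg (n + 1) i * xg (n + 1) (i + 1) := by
  rw [map_mul, act_a hΨ hi, act_b hΨ hi, mul_assoc, xg_mul_self, mul_one]

theorem act_hi {i j : ℕ} (h : i + 2 ≤ j) : Ψ (sg n i) (cc (n + 1) j) = cc (n + 1) j := by
  unfold cc
  have key : ∀ d, d + (i + 2) ≤ n + 1 → Ψ (sg n i) (tl (n + 1) d) = tl (n + 1) d := by
    intro d
    induction d with
    | zero =>
      intro _
      exact map_one _
    | succ d ih =>
      intro hd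
      show Ψ (sg n i) (xg _ _ * tl _ d) = xg _ _ * tl _ d
      rw [map_mul, ih (by omega), act_c hΨ (by omega) (by omega)]
  rcases Nat.lt_or_ge j (n + 1) with h1 | h1
  · exact key _ (by omega)
  · rw [show n + 1 - j = 0 by omega]
    exact map_one _

theorem act_lo {i j : ℕ} (hi : i < n) (h : j ≤ i) :
    Ψ (sg n i) (cc (n + 1) j) = cc (n + 1) j := by
  have key : ∀ d j, j + d = i → Ψ (sg n i) (cc (n + 1) j) = cc (n + 1) j := by
    intro d
    induction d with
    | zero =>
      intro j hj
      rw [add_zero] at hj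
      rw [hj, cc_succ (by omega : i < n + 1), cc_succ (by omega : i + 1 < n + 1), ← mul_assoc,
        map_mul, act_pair hΨ hi, act_hi hΨ (by omega)]
    | succ d ih =>
      intro j hj
      rw [cc_succ (by omega : j < n + 1), map_mul, ih (j + 1) (by omega),
        act_c hΨ (by omega) (by omega)]
  exact key (i - j) j (by omega)

theorem act_mid {i : ℕ} (hi : i < n) :
    Ψ (sg n i) (cc (n + 1) (i + 1)) = xg (n + 1) i * cc (n + 1) (i + 2) := by
  rw [cc_succ (by omega : i + 1 < n + 1), map_mul, act_b hΨ hi, act_hi hΨ (by omega)]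

end

theorem exists_psi (m : ℕ) : ∃ ψ : O (2 * m + 1 + 1) →* O (m + 1 + 1),
    (∀ k, k ≤ m → ψ (xg _ k) = xg _ k) ∧
    (∀ k, k ≤ m → ψ (xg _ (2 * m + 1 - k)) = (cc (m + 1 + 1) (k + 1))⁻¹ * cc (m + 1 + 1) k) := by
  obtain ⟨ψ, hψ⟩ := olift (k := 2 * m + 1 + 1) (G := O (m + 1 + 1)) (fun j =>
    if j.1 ≤ m then xg _ j.1 else
      (cc (m + 1 + 1) (2 * m + 1 - j.1 + 1))⁻¹ * cc (m + 1 + 1) (2 * m + 1 - j.1)) (by
    intro j
    have hj := j.2
    split_ifs with h
    · exact xg_mul_self _ _
    · rw [cc_succ (by omega : 2 * m + 1 - j.1 < m + 1 + 1)]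
      calc _ = (cc (m + 1 + 1) (2 * m + 1 - j.1 + 1))⁻¹ * (xg (m + 1 + 1) (2 * m + 1 - j.1) *
            xg (m + 1 + 1) (2 * m + 1 - j.1)) * cc (m + 1 + 1) (2 * m + 1 - j.1 + 1) := by group
        _ = 1 := by rw [xg_mul_self]; group)
  have hψ' : ∀ j, j < 2 * m + 1 + 1 → ψ (xg _ j) = if j ≤ m then xg _ j else
      (cc (m + 1 + 1) (2 * m + 1 - j + 1))⁻¹ * cc (m + 1 + 1) (2 * m + 1 - j) := by
    intro j hj
    have := hψ ⟨j, hj⟩
    rw [xg_eq] at this
    exact this
  refine ⟨ψ, ?_, ?_⟩
  · intro k hk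
    rw [hψ' k (by omega), if_pos hk]
  · intro k hk
    rw [hψ' _ (by omega), if_neg (by omega), show 2 * m + 1 - (2 * m + 1 - k) = k by omega]

theorem bfd : BfdStmt := by
  intro m Ψ Ψ' hΨ hΨ'
  obtain ⟨fold, hfold⟩ := exists_fold m
  obtain ⟨ψ, hψ1, hψ2⟩ := exists_psi m
  refine ⟨fold, ψ, ?_, ?_, ?_⟩
  · intro k k1 k2 h1 h2
    rw [hfold, sg_eq, sg_eq, h1, show k2.1 = 2 * m - k.1 by omega]
    unfold ff
    split_ifs with h
    · rw [h]
    · rfl
  · intro k k1 h
    rw [xg_eq, xg_eq, h]
    exact hψ1 _ (by have := k.2; omega)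
  · intro j hj
    -- the equivariance on generators
    have gen1 : ∀ (k : Fin (m + 1)) (l : Fin (2 * m + 1 + 1)),
        Ψ (j (gen _ k)) (ψ (ox l)) = ψ (Ψ' (fold (gen _ k)) (ox l)) := by
      intro k l
      have hk := k.2
      have hl := l.2
      rw [hj, hfold, xg_eq, sg_eq]
      have hlc : l.1 ≤ m ∨ ∃ p, p ≤ m ∧ l.1 = 2 * m + 1 - p := by
        rcases Nat.lt_or_ge m l.1 with h | h
        · exact Or.inr ⟨2 * m + 1 - l.1, by omega, by omega⟩
        · exact Or.inl h
      by_cases hkm : k.1 = m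
      · rw [if_pos (by omega)]
        unfold ff
        rw [if_pos hkm, hkm, pow_two, map_mul, MulAut.mul_apply]
        rcases hlc with h | ⟨p, hp, h⟩
        · rw [hψ1 _ h]
          by_cases hlm : l.1 = m
          · rw [hlm, act_a hΨ' (by omega)]
            simp only [map_mul]
            rw [hψ1 _ le_rfl]
            have e := hψ2 m le_rfl
            rw [show 2 * m + 1 - m = m + 1 by omega, cc_succ (by omega : m < m + 1 + 1),
              cc_succ (by omega : m + 1 < m + 1 + 1), cc_top, mul_one, xg_inv] at e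
            rw [e, act_a hΨ (by omega)]
            simp only [map_mul]
            rw [act_a hΨ (by omega), act_b hΨ (by omega)]
            calc xg (m + 1 + 1) m * xg (m + 1 + 1) (m + 1) * xg (m + 1 + 1) m *
                  xg (m + 1 + 1) m * (xg (m + 1 + 1) m * xg (m + 1 + 1) (m + 1) *
                    xg (m + 1 + 1) m)
                = xg (m + 1 + 1) m * xg (m + 1 + 1) (m + 1) * (xg (m + 1 + 1) m *
                  xg (m + 1 + 1) m) * xg (m + 1 + 1) m * xg (m + 1 + 1) (m + 1) *
                    xg (m + 1 + 1) m := by simp only [mul_assoc]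
              _ = _ := by rw [xg_mul_self, mul_one]; simp only [mul_assoc]
          · rw [act_c hΨ (by omega) (by omega), act_c hΨ (by omega) (by omega),
              act_c hΨ' (by omega) (by omega), hψ1 _ h]
        · rw [h, hψ2 p hp]
          by_cases hpm : p = m
          · subst hpm
            rw [show 2 * p + 1 - p = p + 1 by omega, act_b hΨ' (by omega), hψ1 _ le_rfl]
            simp only [map_mul, map_inv]
            rw [act_mid hΨ (by omega), act_lo hΨ (by omega) le_rfl]
            simp only [map_mul, map_inv]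
            rw [act_lo hΨ (by omega) le_rfl, act_a hΨ (by omega), act_hi hΨ (by omega), cc_top,
              mul_one, cc_succ (by omega : p < p + 1 + 1),
              cc_succ (by omega : p + 1 < p + 1 + 1), cc_top, mul_one]
            simp only [mul_inv_rev, xg_inv]
            calc xg (p + 1 + 1) p * (xg (p + 1 + 1) (p + 1) * xg (p + 1 + 1) p) *
                  (xg (p + 1 + 1) p * xg (p + 1 + 1) (p + 1))
                = xg (p + 1 + 1) p * xg (p + 1 + 1) (p + 1) * (xg (p + 1 + 1) p *
                  xg (p + 1 + 1) p) * xg (p + 1 + 1) (p + 1) := by simp only [mul_assoc]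
              _ = xg (p + 1 + 1) p * (xg (p + 1 + 1) (p + 1) * xg (p + 1 + 1) (p + 1)) := by
                rw [xg_mul_self, mul_one, mul_assoc]
              _ = _ := by rw [xg_mul_self, mul_one]
          · simp only [map_mul, map_inv]
            rw [act_lo hΨ (by omega) (by omega), act_lo hΨ (by omega) (by omega),
              act_lo hΨ (by omega) (by omega), act_lo hΨ (by omega) (by omega),
              act_c hΨ' (by omega) (by omega), hψ2 p hp]
      · rw [if_neg (by omega)]
        unfold ff
        rw [if_neg hkm, map_mul, MulAut.mul_apply]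
        rcases hlc with h | ⟨p, hp, h⟩
        · rw [hψ1 _ h, act_c hΨ' (by omega : l.1 ≠ 2 * m - k.1) (by omega)]
          by_cases h1 : l.1 = k.1
          · rw [h1, act_a hΨ (by omega), act_a hΨ' (by omega)]
            simp only [map_mul]
            rw [hψ1 _ (by omega), hψ1 _ (by omega)]
          · by_cases h2 : l.1 = k.1 + 1
            · rw [h2, act_b hΨ (by omega), act_b hΨ' (by omega), hψ1 _ (by omega)]
            · rw [act_c hΨ h1 h2, act_c hΨ' h1 h2, hψ1 _ h]
        · rw [h, hψ2 p hp]
          by_cases h1 : p = k.1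
          · rw [h1, show 2 * m + 1 - k.1 = 2 * m - k.1 + 1 by omega, act_b hΨ' (by omega),
              act_c hΨ' (by omega) (by omega), show 2 * m - k.1 = 2 * m + 1 - (k.1 + 1) by omega,
              hψ2 (k.1 + 1) (by omega)]
            simp only [map_mul, map_inv]
            rw [act_mid hΨ (by omega), act_lo hΨ (by omega) le_rfl,
              cc_succ (by omega : k.1 < m + 1 + 1)]
            simp only [mul_inv_rev, xg_inv]
            calc (cc (m + 1 + 1) (k.1 + 2))⁻¹ * xg (m + 1 + 1) k.1 *
                  (xg (m + 1 + 1) k.1 * cc (m + 1 + 1) (k.1 + 1))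
                = (cc (m + 1 + 1) (k.1 + 2))⁻¹ * (xg (m + 1 + 1) k.1 * xg (m + 1 + 1) k.1) *
                  cc (m + 1 + 1) (k.1 + 1) := by simp only [mul_assoc]
              _ = _ := by rw [xg_mul_self, mul_one]
          · by_cases h2 : p = k.1 + 1
            · rw [h2, show 2 * m + 1 - (k.1 + 1) = 2 * m - k.1 by omega, act_a hΨ' (by omega)]
              simp only [map_mul, map_inv]
              rw [act_c hΨ' (by omega) (by omega), act_c hΨ' (by omega) (by omega),
                show 2 * m - k.1 = 2 * m + 1 - (k.1 + 1) by omega,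
                hψ2 (k.1 + 1) (by omega), show 2 * m + 1 - (k.1 + 1) + 1 = 2 * m + 1 - k.1 by omega,
                hψ2 k.1 (by omega), act_mid hΨ (by omega), act_hi hΨ (by omega),
                cc_succ (by omega : k.1 < m + 1 + 1), cc_succ (by omega : k.1 + 1 < m + 1 + 1)]
              simp only [mul_inv_rev, xg_inv]
              calc (cc (m + 1 + 1) (k.1 + 1 + 1))⁻¹ * (xg (m + 1 + 1) k.1 *
                    cc (m + 1 + 1) (k.1 + 1 + 1))
                  = (cc (m + 1 + 1) (k.1 + 1 + 1))⁻¹ * xg (m + 1 + 1) k.1 *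
                    cc (m + 1 + 1) (k.1 + 1 + 1) := by simp only [mul_assoc]
                _ = (cc (m + 1 + 1) (k.1 + 1 + 1))⁻¹ * (xg (m + 1 + 1) (k.1 + 1) *
                    xg (m + 1 + 1) (k.1 + 1)) * (xg (m + 1 + 1) k.1) * (xg (m + 1 + 1) (k.1 + 1) *
                    xg (m + 1 + 1) (k.1 + 1)) * cc (m + 1 + 1) (k.1 + 1 + 1) := by
                    rw [xg_mul_self]; simp only [mul_one]
                _ = _ := by group
            · simp only [map_mul, map_inv]
              have a1 : Ψ (sg (m + 1) k.1) (cc (m + 1 + 1) (p + 1)) = cc (m + 1 + 1) (p + 1) := by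
                rcases Nat.lt_or_ge k.1 p with h3 | h3
                · exact act_hi hΨ (by omega)
                · exact act_lo hΨ (by omega) (by omega)
              have a2 : Ψ (sg (m + 1) k.1) (cc (m + 1 + 1) p) = cc (m + 1 + 1) p := by
                rcases Nat.lt_or_ge k.1 p with h3 | h3
                · exact act_hi hΨ (by omega)
                · exact act_lo hΨ (by omega) (by omega)
              rw [a1, a2, act_c hΨ' (by omega : 2 * m + 1 - p ≠ 2 * m - k.1) (by omega),
                act_c hΨ' (by omega) (by omega), hψ2 p hp]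
    have gen2 : ∀ (k : Fin (m + 1)) (y : O (2 * m + 1 + 1)),
        Ψ (j (gen _ k)) (ψ y) = ψ (Ψ' (fold (gen _ k)) y) := by
      intro k y
      have := oext (φ := (MulEquiv.toMonoidHom (Ψ (j (gen _ k)))).comp ψ)
        (ψ := ψ.comp (MulEquiv.toMonoidHom (Ψ' (fold (gen _ k))))) (fun l => gen1 k l)
      exact DFunLike.congr_fun this y
    intro a
    have ha : a ∈ Subgroup.closure (Set.range (gen (CoxeterMatrix.B (m + 1)))) := by
      rw [closure_gen]
      exact Subgroup.mem_top a
    induction ha using Subgroup.closure_induction with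
    | mem x hx =>
      obtain ⟨k, rfl⟩ := hx
      exact gen2 k
    | one =>
      intro y
      simp only [map_one, MulAut.one_apply]
    | mul x y _ _ ihx ihy =>
      intro z
      simp only [map_mul, MulAut.mul_apply]
      rw [ihy, ihx]
    | inv x _ ih =>
      intro z
      have h1 := ih ((Ψ' (fold x))⁻¹ z)
      rw [MulAut.apply_inv_self] at h1
      rw [map_inv, map_inv, map_inv, map_inv, ← h1, MulAut.inv_apply_self]

end Unf.H39
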