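import Pool.Agent.Helper12_UNF.Stmts2

set_option autoImplicit false

/-!
# Squad UNF, module DSB: detectors for subsets
-/

namespace Unf.H39

open Art Unf

theorem P_mono {S : Type} (M : CoxeterMatrix S) {C C' : Set S} (h : C' ⊆ C) : P M C' ≤ P M C :=
  Subgroup.closure_mono (Set.image_mono h)

theorem P_empty {S : Type} (M : CoxeterMatrix S) {x : Gp M} (h : x ∈ P M (∅ : Set S)) : x = 1 := by
  unfold P at h
  rw [Set.image_empty, Subgroup.closure_empty] at h
  exact Subgroup.mem_bot.1 h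

theorem dsb (hA : AdcStmt) : DsbStmt := by
  intro S _ M C C' hC hD
  obtain ⟨Sg, D, h1, h2, h3, h4, h5, h6⟩ := hD
  have hsub : ∀ s : S, C' ∩ (C \ {s}) = C' \ {s} := by
    intro s
    ext x
    simp only [Set.mem_inter_iff, Set.mem_diff, Set.mem_singleton_iff]
    exact ⟨fun h => ⟨h.1, h.2.2⟩, fun h => ⟨h.1, hC h.1, h.2⟩⟩
  refine ⟨Sg, D, h1, h2, h3, h4, ?_, ?_⟩
  · intro s hs a ha haS
    have h7 := h5 s (hC hs) a (P_mono M hC ha) haS
    obtain ⟨a', ha', b, hb, hab⟩ := hA M C' (C \ {s}) ∅ a a 1 ha h7 (one_mem _) (mul_one a).symm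
    rw [Set.inter_empty] at hb
    rw [P_empty M hb, mul_one] at hab
    rw [hsub] at ha'
    rw [hab]
    exact ha'
  · intro s hs t ht hst a ha haD
    obtain ⟨b, hb, c, hc, habc⟩ := h6 s (hC hs) t (hC ht) hst a (P_mono M hC ha) haD
    obtain ⟨b', hb', c', hc', h⟩ := hA M C' (C \ {s}) (C \ {t}) a b c ha hb hc habc
    rw [hsub] at hb' hc'
    exact ⟨b', hb', c', hc', h⟩

end Unf.H39
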