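import Pool.Agent.Helper50_UNF.Base

set_option autoImplicit false

/-!
# Squad UNF, module GEV: from the twist action to the Artin action
-/

namespace Unf.H39

open Art

/-! ### Free factors -/

open Classical in
/-- The retraction onto the subgroup generated by `Y`. -/
noncomputable def rtr {X : Type} (Y : Set X) : FreeGroup X →* FreeGroup X :=
  FreeGroup.lift (fun x => if x ∈ Y then FreeGroup.of x else 1)

theorem rtr_of_mem {X : Type} {Y : Set X} {x : X} (h : x ∈ Y) :
    rtr Y (FreeGroup.of x) = FreeGroup.of x := by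
  unfold rtr
  rw [FreeGroup.lift_apply_of, if_pos h]

theorem rtr_of_not_mem {X : Type} {Y : Set X} {x : X} (h : x ∉ Y) :
    rtr Y (FreeGroup.of x) = 1 := by
  unfold rtr
  rw [FreeGroup.lift_apply_of, if_neg h]

theorem rtr_fix {X : Type} {Y : Set X} {f : FreeGroup X}
    (h : f ∈ Subgroup.closure (FreeGroup.of '' Y)) : rtr Y f = f := by
  induction h using Subgroup.closure_induction with
  | mem x hx =>
    obtain ⟨y, hy, rfl⟩ := hx
    exact rtr_of_mem hy
  | one => exact map_one _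
  | mul x y _ _ ihx ihy => rw [map_mul, ihx, ihy]
  | inv x _ ih => rw [map_inv, ih]

theorem rtr_mem {X : Type} {Y Z : Set X} {f : FreeGroup X}
    (h : f ∈ Subgroup.closure (FreeGroup.of '' Z)) :
    rtr Y f ∈ Subgroup.closure (FreeGroup.of '' (Z ∩ Y)) := by
  induction h using Subgroup.closure_induction with
  | mem x hx =>
    obtain ⟨y, hy, rfl⟩ := hx
    by_cases h : y ∈ Y
    · rw [rtr_of_mem h]
      exact Subgroup.subset_closure ⟨y, ⟨hy, h⟩, rfl⟩
    · rw [rtr_of_not_mem h]
      exact one_mem _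
  | one =>
    rw [map_one]
    exact one_mem _
  | mul x y _ _ ihx ihy =>
    rw [map_mul]
    exact mul_mem ihx ihy
  | inv x _ ih =>
    rw [map_inv]
    exact inv_mem ih

theorem mem_inter {X : Type} {Y Z : Set X} {f : FreeGroup X}
    (h1 : f ∈ Subgroup.closure (FreeGroup.of '' Z))
    (h2 : f ∈ Subgroup.closure (FreeGroup.of '' Y)) :
    f ∈ Subgroup.closure (FreeGroup.of '' (Z ∩ Y)) := by
  have := rtr_mem (Y := Y) h1
  rwa [rtr_fix h2] at this

/-! ### The action on the edges -/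

/-- The edges of the curves `0, ..., n - 1`. -/
def EE (N n : ℕ) : Set (Xg N) := {x | ∃ (i : Fin N) (j : Fin (N + 1)), i.1 < n ∧ x = Sum.inl (i, j)}

/-- The subgroup generated by the edges. -/
def ES (N n : ℕ) : Subgroup (FreeGroup (Xg N)) := Subgroup.closure (FreeGroup.of '' EE N n)

theorem eg_mem {N n : ℕ} {i : Fin N} (hi : i.1 < n) (j : Fin (N + 1)) : eg i j ∈ ES N n :=
  Subgroup.subset_closure ⟨_, ⟨i, j, hi, rfl⟩, rfl⟩

theorem cyc_mem {N n : ℕ} {i : Fin N} (hi : i.1 < n) (r : ℕ) : cyc i r ∈ ES N n := by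
  unfold cyc
  refine Subgroup.list_prod_mem _ fun y hy => ?_
  rw [List.mem_map] at hy
  obtain ⟨j, _, rfl⟩ := hy
  exact eg_mem hi j

theorem cyc_fix {N : ℕ} {adj : Fin N → Fin N → Prop} {T : Fin N → MulAut (FreeGroup (Xg N))}
    (hirr : ∀ i, ¬ adj i i) (hT : Tw adj T) (i : Fin N) (r : ℕ) : T i (cyc i r) = cyc i r := by
  unfold cyc
  rw [map_list_prod, List.map_map]
  congr 1
  apply List.map_congr_left
  intro j _
  exact hT.e_fix i i j (fun h => hirr i h.1) (fun h => hirr i h.1)

theorem gen_E {N n : ℕ} {adj : Fin N → Fin N → Prop} {T : Fin N → MulAut (FreeGroup (Xg N))}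
    (hirr : ∀ i, ¬ adj i i) (hT : Tw adj T) (i : Fin N) (hi : i.1 < n) :
    (∀ f ∈ ES N n, T i f ∈ ES N n) ∧ (∀ f ∈ ES N n, (T i)⁻¹ f ∈ ES N n) := by
  have key : ∀ t j, t.1 < n → T i (eg t j) ∈ ES N n ∧ (T i)⁻¹ (eg t j) ∈ ES N n := by
    intro t j ht
    have back : ∀ f g, T i g = f → (T i)⁻¹ f = g := by
      intro f g h
      rw [← h, MulAut.inv_apply_self]
    by_cases h1 : adj i t ∧ i < t ∧ j = i.succ
    · obtain ⟨h1, h2, h3⟩ := h1
      subst h3
      have e := hT.out i t h1 h2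
      refine ⟨?_, ?_⟩
      · rw [e]
        exact mul_mem (cyc_mem hi _) (eg_mem ht _)
      · rw [back _ ((cyc i (t.1 + 1))⁻¹ * eg t i.succ) (by
          rw [map_mul, map_inv, cyc_fix hirr hT, e, inv_mul_cancel_left])]
        exact mul_mem (inv_mem (cyc_mem hi _)) (eg_mem ht _)
    · by_cases h2 : adj i t ∧ t < i ∧ j = i.castSucc
      · obtain ⟨h2, h3, h4⟩ := h2
        subst h4
        have e := hT.inn i t h2 h3
        refine ⟨?_, ?_⟩
        · rw [e]
          exact mul_mem (eg_mem ht _) (inv_mem (cyc_mem hi _))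
        · rw [back _ (eg t i.castSucc * cyc i (t.1 + 1)) (by
            rw [map_mul, cyc_fix hirr hT, e, inv_mul_cancel_right])]
          exact mul_mem (eg_mem ht _) (cyc_mem hi _)
      · have e := hT.e_fix i t j h1 h2
        rw [back _ _ e, e]
        exact ⟨eg_mem ht _, eg_mem ht _⟩
  have ext : ∀ (θ : MulAut (FreeGroup (Xg N))), (∀ t j, t.1 < n → θ (eg t j) ∈ ES N n) →
      ∀ f ∈ ES N n, θ f ∈ ES N n := by
    intro θ hθ f hf
    unfold ES at hf
    induction hf using Subgroup.closure_induction with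
    | mem x hx =>
      obtain ⟨_, ⟨t, j, ht, rfl⟩, rfl⟩ := hx
      exact hθ t j ht
    | one =>
      rw [map_one]
      exact one_mem _
    | mul x y _ _ ihx ihy =>
      rw [map_mul]
      exact mul_mem ihx ihy
    | inv x _ ih =>
      rw [map_inv]
      exact inv_mem ih
  exact ⟨ext _ fun t j ht => (key t j ht).1, ext _ fun t j ht => (key t j ht).2⟩

theorem all_E {N n : ℕ} {hn : n ≤ N} {adj : Fin N → Fin N → Prop}
    {T : Fin N → MulAut (FreeGroup (Xg N))}
    {Φ : Gp (CoxeterMatrix.A n) →* MulAut (FreeGroup (Xg N))} (hP : PathAct N n hn adj T Φ)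
    (a : Gp (CoxeterMatrix.A n)) :
    (∀ f ∈ ES N n, Φ a f ∈ ES N n) ∧ (∀ f ∈ ES N n, (Φ a)⁻¹ f ∈ ES N n) ∧
      ∀ t, Φ a (hg t) * (hg t)⁻¹ ∈ ES N n := by
  have ha : a ∈ Subgroup.closure (Set.range (gen (CoxeterMatrix.A n))) := by
    rw [closure_gen]
    exact Subgroup.mem_top a
  induction ha using Subgroup.closure_induction with
  | mem x hx =>
    obtain ⟨i, rfl⟩ := hx
    rw [hP.act i]
    obtain ⟨h1, h2⟩ := gen_E (n := n) hP.irr hP.tw (Fin.castLE hn i) i.2
    refine ⟨h1, h2, fun t => ?_⟩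
    by_cases ht : t = Fin.castLE hn i
    · rw [ht, hP.tw.hh, mul_inv_cancel_right]
      exact cyc_mem (i := Fin.castLE hn i) i.2 _
    · rw [hP.tw.h_fix _ _ ht, mul_inv_cancel]
      exact one_mem _
  | one =>
    rw [map_one]
    refine ⟨fun f hf => hf, fun f hf => by rw [inv_one]; exact hf, fun t => ?_⟩
    rw [MulAut.one_apply, mul_inv_cancel]
    exact one_mem _
  | mul x y _ _ ihx ihy =>
    obtain ⟨x1, x2, x3⟩ := ihx
    obtain ⟨y1, y2, y3⟩ := ihy
    rw [map_mul]
    refine ⟨fun f hf => ?_, fun f hf => ?_, fun t => ?_⟩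
    · rw [MulAut.mul_apply]
      exact x1 _ (y1 _ hf)
    · rw [mul_inv_rev, MulAut.mul_apply]
      exact y2 _ (x2 _ hf)
    · rw [MulAut.mul_apply]
      have e : Φ x (Φ y (hg t)) * (hg t)⁻¹ =
          Φ x (Φ y (hg t) * (hg t)⁻¹) * (Φ x (hg t) * (hg t)⁻¹) := by
        rw [map_mul, map_inv]
        group
      rw [e]
      exact mul_mem (x1 _ (y3 t)) (x3 t)
  | inv x _ ih =>
    obtain ⟨x1, x2, x3⟩ := ih
    rw [map_inv]
    refine ⟨x2, by rw [inv_inv]; exact x1, fun t => ?_⟩
    have e : (Φ x)⁻¹ (hg t) * (hg t)⁻¹ = ((Φ x)⁻¹ (Φ x (hg t) * (hg t)⁻¹))⁻¹ := by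
      rw [map_mul, map_inv, MulAut.inv_apply_self]
      group
    rw [e]
    exact inv_mem (x2 _ (x3 t))

theorem mem_range {N n : ℕ} {hn : n ≤ N} {adj : Fin N → Fin N → Prop}
    {T : Fin N → MulAut (FreeGroup (Xg N))}
    {Φ : Gp (CoxeterMatrix.A n) →* MulAut (FreeGroup (Xg N))} (hP : PathAct N n hn adj T Φ)
    (a : Gp (CoxeterMatrix.A n)) : Φ a ∈ Subgroup.closure (Set.range T) := by
  have ha : a ∈ Subgroup.closure (Set.range (gen (CoxeterMatrix.A n))) := by
    rw [closure_gen]
    exact Subgroup.mem_top a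
  induction ha using Subgroup.closure_induction with
  | mem x hx =>
    obtain ⟨i, rfl⟩ := hx
    rw [hP.act i]
    exact Subgroup.subset_closure ⟨_, rfl⟩
  | one =>
    rw [map_one]
    exact one_mem _
  | mul x y _ _ ihx ihy =>
    rw [map_mul]
    exact mul_mem ihx ihy
  | inv x _ ih =>
    rw [map_inv]
    exact inv_mem ih

/-! ### The gauge -/

/-- Left multiplication on the first copy. -/
def LL (G : Type) [Group G] : G →* Equiv.Perm (G ⊕ G) :=
  (Equiv.Perm.sumCongrHom G G).comp ((MonoidHom.inl _ _).comp (MulAction.toPermHom G G))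

theorem LL_inl {G : Type} [Group G] (g y : G) : LL G g (Sum.inl y) = Sum.inl (g * y) := rfl

theorem LL_inr {G : Type} [Group G] (g y : G) : LL G g (Sum.inr y) = Sum.inr y := rfl

/-- The swap. -/
def ta (G : Type) : Equiv.Perm (G ⊕ G) := Equiv.sumComm G G

theorem ta_inl {G : Type} (y : G) : ta G (Sum.inl y) = Sum.inr y := rfl

theorem ta_inv_inr {G : Type} (y : G) : (ta G)⁻¹ (Sum.inr y) = Sum.inl y := by
  rw [Equiv.Perm.inv_eq_iff_eq]
  rfl

/-- The permutations which act on the first copy by left multiplication by elements of `R`. -/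
def Lf {G : Type} [Group G] (R : Subgroup G) : Subgroup (Equiv.Perm (G ⊕ G)) where
  carrier := {q | ∃ r ∈ R, ∀ y, q (Sum.inl y) = Sum.inl (r * y)}
  one_mem' := ⟨1, R.one_mem, fun y => by rw [one_mul]; rfl⟩
  mul_mem' := by
    rintro q q' ⟨r, hr, h⟩ ⟨r', hr', h'⟩
    refine ⟨r * r', R.mul_mem hr hr', fun y => ?_⟩
    rw [Equiv.Perm.mul_apply, h', h, mul_assoc]
  inv_mem' := by
    rintro q ⟨r, hr, h⟩
    refine ⟨r⁻¹, R.inv_mem hr, fun y => ?_⟩
    rw [Equiv.Perm.inv_eq_iff_eq, h, mul_inv_cancel_left]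

theorem LL_mem {G : Type} [Group G] {R : Subgroup G} {r : G} (hr : r ∈ R) : LL G r ∈ Lf R :=
  ⟨r, hr, fun _ => rfl⟩

theorem conj_mem {G : Type} [Group G] (R : Subgroup G) (g : G) :
    (ta G)⁻¹ * LL G g * ta G ∈ Lf R := by
  refine ⟨1, R.one_mem, fun y => ?_⟩
  rw [Equiv.Perm.mul_apply, Equiv.Perm.mul_apply, ta_inl, LL_inr, ta_inv_inr, one_mul]

theorem pre_mem {k lo hi i j : ℕ} (hij : i ≤ j) (h1 : lo ≤ i) (h2 : j ≤ hi + 1) :
    (pre k i)⁻¹ * pre k j ∈
      Subgroup.closure {y : O k | ∃ l : Fin k, lo ≤ l.1 ∧ l.1 ≤ hi ∧ y = ox l} := by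
  refine Subgroup.closure_mono ?_ (H50.pre_mul k i j hij)
  rintro y ⟨l, h3, h4, rfl⟩
  exact ⟨l, by omega, by omega, rfl⟩

theorem gev (hevl : EvlStmt) (hgau : GauStmt) : GevStmt := by
  classical
  intro N n hn adj T Φ hP Ψ hΨ
  obtain ⟨ev, ev1, ev2, ev3⟩ := hevl N n hn adj T Φ hP Ψ hΨ
  refine ⟨?_, ?_⟩
  · intro a s hs h
    have h1 := ev3 a (hg s)
    rw [h, ev2 s hs, map_inv] at h1
    exact (inv_injective h1).symm
  · intro a t lo hi I hlo hthi hhi hI1 hI2 hf
    set R : Subgroup (O (n + 1)) :=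
      Subgroup.closure {y | ∃ j : Fin (n + 1), lo ≤ j.1 ∧ j.1 ≤ hi ∧ y = ox j} with hR
    set Y : Set (Xg N) := {x : Xg N | ∃ i, i ∉ I ∧ (x = Sum.inr i ∨ ∃ j, x = Sum.inl (i, j))}
      with hY
    set f := Φ a (hg t) with hfdef
    have hw1 : f * (hg t)⁻¹ ∈ ES N n := (all_E hP a).2.2 t
    -- `hg t` belongs to the subgroup of `I`
    have hht : hg t ∈ Subgroup.closure (FreeGroup.of '' Y) := by
      have e1 : ∀ g ∈ ES N n, rtr {x : Xg N | ∃ i, x = Sum.inr i} g = 1 := by
        intro g hg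
        have h2 := rtr_mem (Y := {x : Xg N | ∃ i, x = Sum.inr i}) hg
        have h3 : EE N n ∩ {x : Xg N | ∃ i, x = Sum.inr i} = ∅ := by
          ext x
          simp only [Set.mem_inter_iff, Set.mem_empty_iff_false, iff_false]
          rintro ⟨⟨i, j, _, rfl⟩, ⟨k, hk⟩⟩
          exact absurd hk (by simp)
        rw [h3, Set.image_empty, Subgroup.closure_empty] at h2
        exact Subgroup.mem_bot.1 h2
      have e2 := e1 _ hw1
      rw [map_mul, map_inv] at e2
      have e3 : rtr {x : Xg N | ∃ i, x = Sum.inr i} (hg t) = hg t := rtr_of_mem ⟨t, rfl⟩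
      rw [e3, mul_inv_eq_one] at e2
      rw [← e2]
      exact Subgroup.closure_mono (Set.image_mono Set.inter_subset_left) (rtr_mem hf)
    have hw2 : f * (hg t)⁻¹ ∈ Subgroup.closure (FreeGroup.of '' Y) := mul_mem hf (inv_mem hht)
    have hw := mem_inter hw1 hw2
    -- the gauge
    set L := LL (O (n + 1)) with hL
    set τ := ta (O (n + 1)) with hτ
    let γ : Fin N → ℕ → Equiv.Perm (O (n + 1) ⊕ O (n + 1)) := fun i k =>
      if lo ≤ i.1 ∧ i.1 < hi then (if k = i.1 then L (pre (n + 1) lo) else 1) else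
        if ∃ k' : Fin N, k'.1 = k ∧ adj i k' ∧ lo ≤ k'.1 ∧ k'.1 < hi then 1 else τ
    let δ : Fin N → Equiv.Perm (O (n + 1) ⊕ O (n + 1)) := fun i =>
      if lo ≤ i.1 ∧ i.1 < hi then 1 else τ
    let φ : FreeGroup (Xg N) →* Equiv.Perm (O (n + 1) ⊕ O (n + 1)) := L.comp ev
    let φ' : FreeGroup (Xg N) →* Equiv.Perm (O (n + 1) ⊕ O (n + 1)) :=
      FreeGroup.lift (Sum.elim (fun p => (vst γ δ p.1 p.2)⁻¹ * φ (eg p.1 p.2) * ven γ δ p.1 p.2)
        (fun i => (δ i)⁻¹ * φ (hg i)))
    have hγ : ∀ i k : Fin N, adj i k → γ i k.1 = γ k i.1 := by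
      intro i k hik
      have hne : k.1 ≠ i.1 := by
        intro h
        have : k = i := Fin.ext h
        rw [this] at hik
        exact hP.irr i hik
      have e1 : (∃ k' : Fin N, k'.1 = k.1 ∧ adj i k' ∧ lo ≤ k'.1 ∧ k'.1 < hi) ↔
          (lo ≤ k.1 ∧ k.1 < hi) := by
        constructor
        · rintro ⟨k', h1, _, h2⟩
          rwa [h1] at h2
        · intro h
          exact ⟨k, rfl, hik, h⟩
      have e2 : (∃ k' : Fin N, k'.1 = i.1 ∧ adj k k' ∧ lo ≤ k'.1 ∧ k'.1 < hi) ↔
          (lo ≤ i.1 ∧ i.1 < hi) := by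
        constructor
        · rintro ⟨k', h1, _, h2⟩
          rwa [h1] at h2
        · intro h
          exact ⟨i, rfl, hP.symm _ _ hik, h⟩
      show (if lo ≤ i.1 ∧ i.1 < hi then (if k.1 = i.1 then L (pre (n + 1) lo) else 1) else
          if ∃ k' : Fin N, k'.1 = k.1 ∧ adj i k' ∧ lo ≤ k'.1 ∧ k'.1 < hi then 1 else τ) =
        (if lo ≤ k.1 ∧ k.1 < hi then (if i.1 = k.1 then L (pre (n + 1) lo) else 1) else
          if ∃ k' : Fin N, k'.1 = i.1 ∧ adj k k' ∧ lo ≤ k'.1 ∧ k'.1 < hi then 1 else τ)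
      rw [if_neg hne, if_neg hne.symm]
      simp only [e1, e2]
      by_cases h1 : lo ≤ i.1 ∧ i.1 < hi <;> by_cases h2 : lo ≤ k.1 ∧ k.1 < hi <;>
        simp only [h1, h2, if_true, if_false, and_self]
    have hφ1 : ∀ i j, φ' (eg i j) = (vst γ δ i j)⁻¹ * φ (eg i j) * ven γ δ i j := by
      intro i j
      show FreeGroup.lift _ (FreeGroup.of _) = _
      rw [FreeGroup.lift_apply_of]
      rfl
    have hφ2 : ∀ i, φ' (hg i) = (δ i)⁻¹ * φ (hg i) := by
      intro i
      show FreeGroup.lift _ (FreeGroup.of _) = _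
      rw [FreeGroup.lift_apply_of]
      rfl
    have hδt : δ t = 1 := if_pos ⟨hlo, hthi⟩
    have key := hgau N adj T hP.irr hP.symm hP.tw φ φ' γ δ hγ hφ1 hφ2 (Φ a) (mem_range hP a) t
    rw [hδt, inv_one, one_mul] at key
    have hht' : φ' (hg t) = φ (hg t) := by
      rw [hφ2, hδt, inv_one, one_mul]
    have hww : φ' (f * (hg t)⁻¹) = φ (f * (hg t)⁻¹) := by
      rw [map_mul, map_mul, map_inv, map_inv, hht', hfdef, key]
    -- the generators
    have hgen : ∀ x ∈ EE N n ∩ Y, φ' (FreeGroup.of x) ∈ Lf R := by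
      rintro x ⟨⟨i, j, hi0, rfl⟩, ⟨i', hi', hx⟩⟩
      have hii : i' = i := by
        rcases hx with hx | ⟨j', hx⟩
        · exact absurd hx (by simp)
        · have := Sum.inl_injective hx
          exact (congrArg Prod.fst this).symm
      subst hii
      have e := hφ1 i' j
      have hev : φ (eg i' j) = L (if j.1 = i'.1 then (pre (n + 1) i'.1)⁻¹ else
          if j.1 = i'.1 + 1 then pre (n + 1) (i'.1 + 2) else 1) := by
        show L (ev _) = _
        rw [ev1 i' j hi0]
      show φ' (eg i' j) ∈ Lf R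
      rw [e, hev]
      have hiN := i'.2
      have hjN := j.2
      by_cases hc : lo ≤ i'.1 ∧ i'.1 < hi
      · have hγi : ∀ k, γ i' k = if k = i'.1 then L (pre (n + 1) lo) else 1 := fun k => if_pos hc
        have hδi : δ i' = 1 := if_pos hc
        have hv : vst γ δ i' j = if j.1 = i'.1 + 1 then L (pre (n + 1) lo) else 1 := by
          unfold vst
          rw [hγi, hδi]
          by_cases h1 : j.1 = 0
          · rw [if_pos h1, if_neg (by omega)]
          · rw [if_neg h1]
            by_cases h2 : j.1 = i'.1 + 1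
            · rw [if_pos h2, if_pos (by omega)]
            · rw [if_neg h2, if_neg (by omega)]
        have hv' : ven γ δ i' j = if j.1 = i'.1 then L (pre (n + 1) lo) else 1 := by
          unfold ven
          rw [hγi, hδi]
          by_cases h1 : j.1 = N
          · rw [if_pos h1, if_neg (by omega)]
          · rw [if_neg h1]
        rw [hv, hv']
        by_cases h1 : j.1 = i'.1
        · rw [if_neg (by omega), if_pos h1, if_pos h1, inv_one, one_mul, ← map_mul]
          apply LL_mem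
          have := inv_mem (pre_mem (k := n + 1) (lo := lo) (hi := hi) (i := lo) (j := i'.1) hc.1
            le_rfl (by omega))
          rw [mul_inv_rev, inv_inv] at this
          exact this
        · by_cases h2 : j.1 = i'.1 + 1
          · rw [if_pos h2, if_neg h1, if_pos h2, if_neg h1, mul_one, ← map_inv, ← map_mul]
            apply LL_mem
            exact pre_mem (by omega) le_rfl (by omega)
          · rw [if_neg h2, if_neg h1, if_neg h2, if_neg h1, map_one, inv_one, one_mul, one_mul]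
            exact one_mem _
      · have hno : ∀ k, ¬ ∃ k' : Fin N, k'.1 = k ∧ adj i' k' ∧ lo ≤ k'.1 ∧ k'.1 < hi := by
          rintro k ⟨k', _, h2, h3, h4⟩
          rcases (hP.path i' k' hi0 (by omega)).1 h2 with h5 | h5
          · rcases hI1 with h6 | ⟨i'', h6, h7⟩
            · omega
            · have : i'' = i' := Fin.ext (by omega)
              rw [this] at h6
              exact hi' h6
          · rcases hI2 with h6 | ⟨i'', h6, h7⟩
            · omega
            · have : i'' = i' := Fin.ext (by omega)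
              rw [this] at h6
              exact hi' h6
        have hγi : ∀ k, γ i' k = τ := fun k => (if_neg hc).trans (if_neg (hno k))
        have hδi : δ i' = τ := if_neg hc
        have hv : vst γ δ i' j = τ := by
          unfold vst
          rw [hγi, hδi, ite_self]
        have hv' : ven γ δ i' j = τ := by
          unfold ven
          rw [hγi, hδi, ite_self]
        rw [hv, hv']
        exact conj_mem R _
    have hwR : φ' (f * (hg t)⁻¹) ∈ Lf R := by
      have : ∀ g ∈ Subgroup.closure (FreeGroup.of '' (EE N n ∩ Y)), φ' g ∈ Lf R := by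
        intro g hg
        induction hg using Subgroup.closure_induction with
        | mem x hx =>
          obtain ⟨y, hy, rfl⟩ := hx
          exact hgen y hy
        | one =>
          rw [map_one]
          exact one_mem _
        | mul x y _ _ ihx ihy =>
          rw [map_mul]
          exact mul_mem ihx ihy
        | inv x _ ih =>
          rw [map_inv]
          exact inv_mem ih
      exact this _ hw
    rw [hww] at hwR
    obtain ⟨r, hr, h⟩ := hwR
    have h1 := h 1
    have h2 : φ (f * (hg t)⁻¹) (Sum.inl 1) = Sum.inl (ev (f * (hg t)⁻¹) * 1) := rfl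
    rw [h2] at h1
    have h3 := Sum.inl_injective h1
    rw [mul_one, mul_one, map_mul, map_inv, hfdef, ev3, ev2 t (by omega), map_inv, inv_inv] at h3
    have h4 := inv_mem hr
    rw [← h3, mul_inv_rev, inv_inv] at h4
    exact h4

end Unf.H39
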